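import Pool.Agent.H44.Met2

open MeasureTheory Set Real Pool.Agent.H44.Met

namespace Pool.Agent.Results.MP_1c6531_pr.Lower

/-- unordered pairs of distinct points of `Fin n` -/
abbrev Pair (n : ℕ) : Type := {e : Sym2 (Fin n) // ¬ e.IsDiag}

/-- the pair `{i, j}` -/
def pr {n : ℕ} (i j : Fin n) (h : i ≠ j) : Pair n := ⟨s(i, j), by simpa using h⟩

/-- the metric polytope -/
def MetricPolytope (n : ℕ) : Set (Pair n → ℝ) :=
  {d | (∀ e, 0 < d e ∧ d e ≤ 2) ∧ ∀ (i j k : Fin n) (hij : i ≠ j) (hik : i ≠ k) (hkj : k ≠ j),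
    d (pr i j hij) ≤ d (pr i k hik) + d (pr k j hkj)}

def TT (n : ℕ) : Finset (Pair n × Pair n × Pair n) :=
  (Finset.univ : Finset {x : Fin n × Fin n × Fin n // x.1 ≠ x.2.1 ∧ x.1 ≠ x.2.2 ∧ x.2.2 ≠ x.2.1}).image
    fun x => (pr _ _ x.2.2.1, pr _ _ x.2.2.2, pr _ _ x.2.1)

lemma eq_MT (n : ℕ) : MetricPolytope n = MT (TT n) := by
  ext d
  simp only [MetricPolytope, MT, TT, mem_ofPred_eq, Finset.mem_image, Finset.mem_univ, true_and,
    forall_exists_index, forall_apply_eq_imp_iff, and_congr_right_iff]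
  intro _
  exact ⟨fun h x => h _ _ _ x.2.1 x.2.2.1 x.2.2.2,
    fun h i j k a b c => h ⟨(i, j, k), a, b, c⟩⟩

lemma TT_ne (n : ℕ) : ∀ t ∈ TT n, t.1 ≠ t.2.1 := by
  intro t ht
  obtain ⟨⟨⟨i, j, k⟩, a, b, c⟩, -, rfl⟩ := Finset.mem_image.1 ht
  intro h
  have := congrArg Subtype.val h
  simp only [pr, Sym2.eq_iff] at this
  tauto

lemma TT_card (n : ℕ) : (TT n).card ≤ n ^ 3 := by
  refine Finset.card_image_le.trans ?_
  rw [Finset.card_univ]
  refine (Fintype.card_subtype_le _).trans (le_of_eq ?_)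
  simp; ring

def pmap {n : ℕ} (σ : Equiv.Perm (Fin n)) (e : Pair n) : Pair n :=
  ⟨e.1.map σ, fun h => e.2 ((Sym2.isDiag_map σ.injective).1 h)⟩

def pequiv {n : ℕ} (σ : Equiv.Perm (Fin n)) : Pair n ≃ Pair n where
  toFun := pmap σ
  invFun := pmap σ.symm
  left_inv e := Subtype.ext (by simp [pmap, Sym2.map_map])
  right_inv e := Subtype.ext (by simp [pmap, Sym2.map_map])

lemma W_symm {n : ℕ} (e e' : Pair n) : W (MetricPolytope n) e 1 = W (MetricPolytope n) e' 1 := by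
  obtain ⟨e, he⟩ := e
  obtain ⟨e', he'⟩ := e'
  induction e using Sym2.ind with
  | _ a b =>
  induction e' using Sym2.ind with
  | _ a' b' =>
  have hab : a ≠ b := by simpa using he
  have hab' : a' ≠ b' := by simpa using he'
  obtain ⟨σ, h1, h2⟩ : ∃ σ : Equiv.Perm (Fin n), σ a = a' ∧ σ b = b' := by
    refine ⟨(Equiv.swap a a').trans (Equiv.swap (Equiv.swap a a' b) b'), ?_, by simp⟩
    simp only [Equiv.trans_apply, Equiv.swap_apply_left]
    refine Equiv.swap_apply_of_ne_of_ne (fun h => hab ?_) hab'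
    exact (Equiv.swap a a').injective (by rw [← h]; simp)
  have mp := volume_preserving_arrowCongr' (pequiv σ).symm (MeasurableEquiv.refl ℝ)
    (MeasurePreserving.id (volume : Measure ℝ))
  have hm : MeasurableSet (MetricPolytope n ∩ {x | x ⟨s(a, b), he⟩ < 1}) :=
    (eq_MT n ▸ MT_meas _).inter (meas_lt _ _)
  unfold W
  rw [Measure.real, Measure.real, ← mp.measure_preimage hm.nullMeasurableSet]
  congr 2
  ext d
  have hp : ∀ (τ : Equiv.Perm (Fin n)) i j (h : i ≠ j),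
      pmap τ (pr i j h) = pr (τ i) (τ j) (τ.injective.ne h) := fun _ _ _ _ => rfl
  have hd : ∀ e, (MeasurableEquiv.arrowCongr' (pequiv σ).symm (MeasurableEquiv.refl ℝ)) d e =
      d (pmap σ e) := fun e => rfl
  simp only [mem_preimage, mem_inter_iff, MetricPolytope, mem_ofPred_eq, hd, hp]
  have h3 : pmap σ ⟨s(a, b), he⟩ = ⟨s(a', b'), he'⟩ := Subtype.ext (by simp [pmap, h1, h2])
  rw [h3]
  refine and_congr_left fun _ => and_congr ⟨fun h e => ?_, fun h e => h _⟩
    ⟨fun h i j k x y z => ?_, fun h i j k x y z => h _ _ _ _ _ _⟩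
  · have := h ((pequiv σ).symm e)
    rwa [show pmap σ ((pequiv σ).symm e) = e from (pequiv σ).apply_symm_apply e] at this
  · have := h (σ.symm i) (σ.symm j) (σ.symm k) (σ.symm.injective.ne x) (σ.symm.injective.ne y)
      (σ.symm.injective.ne z)
    simpa only [Equiv.apply_symm_apply] using this

theorem result : ∃ c : ℝ, 0 < c ∧ ∀ᶠ n : ℕ in Filter.atTop, ∀ (i j : Fin n) (h : i ≠ j),
    c / √n ≤ volume.real (MetricPolytope n ∩ {d | d (pr i j h) < 1}) /
      volume.real (MetricPolytope n) := by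
  refine ⟨1 / 320, by norm_num, ?_⟩
  filter_upwards [Filter.eventually_ge_atTop 2] with n hn i j h
  have hn' : (2 : ℝ) ≤ n := by exact_mod_cast hn
  have hs : 1 ≤ √(n : ℝ) := by rw [Real.le_sqrt (by norm_num) (by linarith)]; linarith
  have hs2 : √(n : ℝ) ^ 2 = n := Real.sq_sqrt (by linarith)
  set δ : ℝ := 1 / (16 * √n) with hδ
  have h0 : 0 < δ := by positivity
  have h1 : δ ≤ 1 / 6 := by rw [hδ]; exact one_div_le_one_div_of_le (by norm_num) (by linarith)
  have hδ2 : δ ^ 2 * n = 1 / 256 := by rw [hδ, div_pow, mul_pow, hs2]; field_simp; norm_num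
  have hv := vol_lower (TT n) (TT_ne n) h0 h1
  rw [← eq_MT] at hv
  have hV : 0 < volume.real (MetricPolytope n) := (exp_pos _).trans_le hv
  have hg := gibbs (M := MetricPolytope n) (eq_MT n ▸ MT_meas _) (eq_MT n ▸ MT_convex _)
    (eq_MT n ▸ MT_fin _) (fun x hx e => hx.1 e) hV
  rw [Finset.sum_congr rfl (fun e _ => W_symm e (pr i j h)), Finset.sum_const, Finset.card_univ,
    nsmul_eq_mul] at hg
  set m : ℝ := (Fintype.card (Pair n) : ℝ) with hm
  have hm2 : m = n * (n - 1) / 2 := by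
    rw [hm, Sym2.card_subtype_not_diag, Fintype.card_fin, Nat.cast_choose_two]
  have hm3 : (n : ℝ) ^ 2 ≤ 4 * m := by rw [hm2]; nlinarith
  have hm0 : 0 < m := by nlinarith
  have hT : ((TT n).card : ℝ) ≤ n ^ 3 := by exact_mod_cast TT_card n
  have hl : m * δ / 4 ≤ log (volume.real (MetricPolytope n)) := by
    rw [le_log_iff_exp_le hV]
    refine le_trans (exp_le_exp.2 ?_) hv
    have a1 : 16 * ((TT n).card : ℝ) * δ ^ 3 ≤ 16 * n ^ 3 * δ ^ 3 := by gcongr
    have a2 : 16 * (n : ℝ) ^ 3 * δ ^ 3 = 16 * (δ ^ 2 * n) * (n ^ 2 * δ) := by ring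
    rw [hδ2] at a2
    nlinarith [mul_le_mul_of_nonneg_right hm3 h0.le]
  rw [le_div_iff₀ hV, show (1 / 320 : ℝ) / √n = δ / 20 by rw [hδ]; field_simp; norm_num]
  have a3 := mul_le_mul_of_nonneg_left hl hV.le
  unfold W at hg
  refine le_of_mul_le_mul_left ?_ hm0
  nlinarith

end Pool.Agent.Results.MP_1c6531_pr.Lower
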